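import Mathlib

set_option autoImplicit false
set_option linter.unusedSectionVars false

namespace Pool.Agent.Supra60

open Finset Filter Topology

section ext

variable {Γ : Type*} [Group Γ]

/-- admissible decompositions of pieces of `B` into translates of subsets of `A` -/
def Adm (A B : Set Γ) (I : Finset Γ) (C : Γ → Set Γ) : Prop :=
  (∀ g ∈ I, C g ⊆ A ∧ ∀ x ∈ C g, g * x ∈ B) ∧
    (∀ g ∈ I, ∀ h ∈ I, g ≠ h → ∀ x ∈ C g, ∀ y ∈ C h, g * x ≠ h * y)

/-- extension of a locally invariant content on subsets of `A` -/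
noncomputable def extMeas (A : Set Γ) (ν : Set Γ → ENNReal) (B : Set Γ) : ENNReal :=
  sSup {r | ∃ I C, Adm A B I C ∧ r = ∑ g ∈ I, ν (C g)}

variable {A : Set Γ} {ν : Set Γ → ENNReal}

lemma le_extMeas {B : Set Γ} {I : Finset Γ} {C : Γ → Set Γ} (h : Adm A B I C) :
    ∑ g ∈ I, ν (C g) ≤ extMeas A ν B := le_sSup ⟨I, C, h, rfl⟩

lemma adm_nonempty (A : Set Γ) (ν : Set Γ → ENNReal) (B : Set Γ) :
    {r : ENNReal | ∃ I C, Adm A B I C ∧ r = ∑ g ∈ I, ν (C g)}.Nonempty :=
  ⟨0, ∅, fun _ => ∅, ⟨by simp, by simp⟩, by simp⟩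

lemma extMeas_add (hadd : ∀ S T, Disjoint S T → ν (S ∪ T) = ν S + ν T) (h0 : ν ∅ = 0) {S T : Set Γ}
    (hST : Disjoint S T) : extMeas A ν (S ∪ T) = extMeas A ν S + extMeas A ν T := by
  classical
  apply le_antisymm
  · apply sSup_le
    rintro r ⟨I, C, ⟨h1, h2⟩, rfl⟩
    have e : ∀ g ∈ I, ν (C g) = ν {x ∈ C g | g * x ∈ S} + ν {x ∈ C g | g * x ∈ T} := by
      intro g hg
      rw [← hadd]
      · congr 1
        ext x
        simp only [Set.mem_union, Set.mem_ofPred_eq]
        constructor
        · intro hx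
          rcases (h1 g hg).2 x hx with h | h
          · exact Or.inl ⟨hx, h⟩
          · exact Or.inr ⟨hx, h⟩
        · rintro (h | h)
          · exact h.1
          · exact h.1
      · rw [Set.disjoint_left]
        rintro x ⟨_, hx⟩ ⟨_, hx'⟩
        exact Set.disjoint_left.1 hST hx hx'
    rw [sum_congr rfl e, sum_add_distrib]
    apply add_le_add
    · apply le_extMeas (C := fun g => {x ∈ C g | g * x ∈ S})
      exact ⟨fun g hg => ⟨fun x hx => (h1 g hg).1 hx.1, fun x hx => hx.2⟩,
        fun g hg h hh hgh x hx y hy => h2 g hg h hh hgh x hx.1 y hy.1⟩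
    · apply le_extMeas (C := fun g => {x ∈ C g | g * x ∈ T})
      exact ⟨fun g hg => ⟨fun x hx => (h1 g hg).1 hx.1, fun x hx => hx.2⟩,
        fun g hg h hh hgh x hx y hy => h2 g hg h hh hgh x hx.1 y hy.1⟩
  · unfold extMeas
    rw [sSup_eq_iSup, sSup_eq_iSup (s := {r | ∃ I C, Adm A T I C ∧ r = ∑ g ∈ I, ν (C g)})]
    apply ENNReal.biSup_add_biSup_le' (adm_nonempty A ν S) (adm_nonempty A ν T)
    rintro r ⟨I, C, ⟨h1, h2⟩, rfl⟩ t ⟨J, D, ⟨h3, h4⟩, rfl⟩
    have hsum : ∑ g ∈ I, ν (C g) + ∑ g ∈ J, ν (D g) =
        ∑ g ∈ I ∪ J, ν ((if g ∈ I then C g else ∅) ∪ (if g ∈ J then D g else ∅)) := by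
      have e : ∀ g ∈ I ∪ J, ν ((if g ∈ I then C g else ∅) ∪ (if g ∈ J then D g else ∅)) =
          (if g ∈ I then ν (C g) else 0) + (if g ∈ J then ν (D g) else 0) := by
        intro g _
        rw [hadd]
        · congr 1
          · split_ifs <;> simp [h0]
          · split_ifs <;> simp [h0]
        · split_ifs with h5 h6
          · rw [Set.disjoint_left]
            intro x hx hx'
            exact Set.disjoint_left.1 hST ((h1 g h5).2 x hx) ((h3 g h6).2 x hx')
          · simp
          · simp
          · simp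
      rw [sum_congr rfl e, sum_add_distrib]
      congr 1
      · rw [← sum_filter]
        congr 1
        ext g; simp
      · rw [← sum_filter]
        congr 1
        ext g
        simp only [mem_filter, mem_union]
        tauto
    rw [hsum]
    apply le_sSup
    refine ⟨I ∪ J, _, ⟨?_, ?_⟩, rfl⟩
    · intro g _
      refine ⟨?_, ?_⟩
      · intro x hx
        rcases hx with hx | hx
        · split_ifs at hx with h
          · exact (h1 g h).1 hx
          · exact absurd hx (Set.notMem_empty x)
        · split_ifs at hx with h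
          · exact (h3 g h).1 hx
          · exact absurd hx (Set.notMem_empty x)
      · intro x hx
        rcases hx with hx | hx
        · split_ifs at hx with h
          · exact Or.inl ((h1 g h).2 x hx)
          · exact absurd hx (Set.notMem_empty x)
        · split_ifs at hx with h
          · exact Or.inr ((h3 g h).2 x hx)
          · exact absurd hx (Set.notMem_empty x)
    · intro g _ h _ hgh x hx y hy
      rcases hx with hx | hx
      · split_ifs at hx with hg'
        · rcases hy with hy | hy
          · split_ifs at hy with hh'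
            · exact h2 g hg' h hh' hgh x hx y hy
            · exact absurd hy (Set.notMem_empty y)
          · split_ifs at hy with hh'
            · intro e
              exact Set.disjoint_left.1 hST ((h1 g hg').2 x hx) (e ▸ (h3 h hh').2 y hy)
            · exact absurd hy (Set.notMem_empty y)
        · exact absurd hx (Set.notMem_empty x)
      · split_ifs at hx with hg'
        · rcases hy with hy | hy
          · split_ifs at hy with hh'
            · intro e
              exact Set.disjoint_left.1 hST ((h1 h hh').2 y hy) (e ▸ (h3 g hg').2 x hx)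
            · exact absurd hy (Set.notMem_empty y)
          · split_ifs at hy with hh'
            · exact h4 g hg' h hh' hgh x hx y hy
            · exact absurd hy (Set.notMem_empty y)
        · exact absurd hx (Set.notMem_empty x)

lemma extMeas_le_smul (B : Set Γ) (k : Γ) :
    extMeas A ν B ≤ extMeas A ν ((fun x => k * x) '' B) := by
  classical
  apply sSup_le
  rintro r ⟨I, C, ⟨h1, h2⟩, rfl⟩
  have : ∑ g ∈ I, ν (C g) = ∑ g ∈ I.image (fun g => k * g), ν (C (k⁻¹ * g)) := by
    rw [sum_image]
    · simp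
    · intro a _ b _ h
      exact mul_left_cancel h
  rw [this]
  apply le_extMeas (C := fun g => C (k⁻¹ * g))
  refine ⟨?_, ?_⟩
  · intro g hg
    rw [mem_image] at hg
    obtain ⟨g', hg', rfl⟩ := hg
    simp only [inv_mul_cancel_left]
    refine ⟨(h1 g' hg').1, ?_⟩
    intro x hx
    exact ⟨g' * x, (h1 g' hg').2 x hx, by simp [mul_assoc]⟩
  · intro g hg h hh hgh x hx y hy
    rw [mem_image] at hg hh
    obtain ⟨g', hg', rfl⟩ := hg
    obtain ⟨h', hh', rfl⟩ := hh
    simp only [inv_mul_cancel_left] at hx hy
    intro e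
    rw [mul_assoc, mul_assoc] at e
    exact h2 g' hg' h' hh' (fun e' => hgh (by rw [e'])) x hx y hy (mul_left_cancel e)

lemma extMeas_smul (B : Set Γ) (k : Γ) :
    extMeas A ν ((fun x => k * x) '' B) = extMeas A ν B := by
  apply le_antisymm
  · have := extMeas_le_smul (A := A) (ν := ν) ((fun x => k * x) '' B) k⁻¹
    rw [← Set.image_comp] at this
    have e : ((fun x => k⁻¹ * x) ∘ fun x => k * x) = id := by
      funext x; simp
    rw [e, Set.image_id] at this
    exact this
  · exact extMeas_le_smul B k

lemma sum_le_of_disjoint (hadd : ∀ S T, Disjoint S T → ν (S ∪ T) = ν S + ν T) (h0 : ν ∅ = 0)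
    {ι : Type*} (I : Finset ι) (D : ι → Set Γ) (hD : ∀ i ∈ I, ∀ j ∈ I, i ≠ j → Disjoint (D i) (D j)) :
    ∑ i ∈ I, ν (D i) = ν (⋃ i ∈ I, D i) := by
  classical
  induction I using Finset.induction_on with
  | empty => simp [h0]
  | insert a s ha ih =>
    rw [sum_insert ha, ih (fun i hi j hj => hD i (mem_insert_of_mem hi) j (mem_insert_of_mem hj)),
      set_biUnion_insert, hadd]
    rw [Set.disjoint_iUnion₂_right]
    intro i hi
    exact hD a (mem_insert_self _ _) i (mem_insert_of_mem hi) (fun e => ha (e ▸ hi))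

lemma extMeas_self (hadd : ∀ S T, Disjoint S T → ν (S ∪ T) = ν S + ν T) (h0 : ν ∅ = 0)
    (h1 : ν A = 1)
    (hinv : ∀ (g : Γ) (B : Set Γ), B ⊆ A → (∀ x ∈ B, g * x ∈ A) → ν B ≤ ν ((fun x => g * x) '' B)) :
    extMeas A ν A = 1 := by
  apply le_antisymm
  · apply sSup_le
    rintro r ⟨I, C, ⟨h2, h3⟩, rfl⟩
    calc ∑ g ∈ I, ν (C g) ≤ ∑ g ∈ I, ν ((fun x => g * x) '' (C g)) :=
          sum_le_sum (fun g hg => hinv g (C g) (h2 g hg).1 (h2 g hg).2)
      _ = ν (⋃ g ∈ I, (fun x => g * x) '' (C g)) := by
          apply sum_le_of_disjoint hadd h0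
          intro g hg h hh hgh
          rw [Set.disjoint_left]
          rintro x ⟨y, hy, rfl⟩ ⟨z, hz, hzy⟩
          exact h3 g hg h hh hgh y hy z hz hzy.symm
      _ ≤ ν A := by
          have hsub : (⋃ g ∈ I, (fun x => g * x) '' (C g)) ⊆ A := by
            intro x hx
            rw [Set.mem_iUnion₂] at hx
            obtain ⟨g, hg, y, hy, rfl⟩ := hx
            exact (h2 g hg).2 y hy
          conv_rhs => rw [← Set.union_sdiff_cancel hsub]
          rw [hadd _ _ Set.disjoint_sdiff_right]
          exact le_self_add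
      _ = 1 := h1
  · have : Adm A A {1} (fun _ => A) := by
      refine ⟨?_, ?_⟩
      · intro g hg
        rw [mem_singleton] at hg
        subst hg
        exact ⟨subset_rfl, fun x hx => by simpa using hx⟩
      · intro g hg h hh hgh
        rw [mem_singleton] at hg hh
        exact absurd (hg.trans hh.symm) hgh
    have h2 := le_extMeas (ν := ν) this
    simpa [h1] using h2

end ext

section folner

variable {Γ : Type*} [Group Γ] [DecidableEq Γ]

open Classical in
/-- A relative Foelner condition gives an invariant finitely additive measure normalised at `A`. -/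
theorem exists_measure_of_folner (A : Set Γ)
    (hF : ∀ (S : Finset Γ) (n : ℕ), ∃ F : Finset Γ, F.Nonempty ∧ (∀ x ∈ F, x ∈ A) ∧
      ∀ g ∈ S, ((F.image (fun x => g * x)).filter (fun x => x ∈ A ∧ x ∉ F)).card * (n + 1) ≤ F.card) :
    ∃ μ : Set Γ → ENNReal, (∀ S T : Set Γ, Disjoint S T → μ (S ∪ T) = μ S + μ T) ∧
      (∀ (g : Γ) (S : Set Γ), μ ((fun x => g * x) '' S) = μ S) ∧ μ A = 1 := by
  let J := Finset Γ × ℕ
  choose F hFne hFA hFS using fun j : J => hF j.1 j.2
  let 𝒰 : Ultrafilter J := Ultrafilter.of atTop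
  have h𝒰 : (𝒰 : Filter J) ≤ atTop := Ultrafilter.of_le _
  let νj : J → Set Γ → ENNReal := fun j B => ((F j).filter (fun x => x ∈ B)).card / (F j).card
  have hpos : ∀ j, ((F j).card : ENNReal) ≠ 0 := by
    intro j
    have := card_pos.2 (hFne j)
    exact_mod_cast this.ne'
  have htop : ∀ j, ((F j).card : ENNReal) ≠ ⊤ := fun j => ENNReal.natCast_ne_top _
  have hlim : ∀ B, ∃ a, Tendsto (fun j => νj j B) 𝒰 (𝓝 a) := by
    intro B
    obtain ⟨a, -, ha⟩ := isCompact_univ.ultrafilter_le_nhds (𝒰.map (fun j => νj j B)) (by simp)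
    exact ⟨a, ha⟩
  choose ν hν using hlim
  have hadd : ∀ S T, Disjoint S T → ν (S ∪ T) = ν S + ν T := by
    intro S T hST
    have h1 : Tendsto (fun j => νj j (S ∪ T)) 𝒰 (𝓝 (ν S + ν T)) := by
      have h2 := (hν S).add (hν T)
      refine h2.congr ?_
      intro j
      simp only [νj]
      rw [← ENNReal.add_div, ← Nat.cast_add, ← card_union_of_disjoint]
      · congr 3
        ext x
        simp only [mem_union, mem_filter, Set.mem_union]
        tauto
      · rw [disjoint_left]
        intro x hx hx'
        rw [mem_filter] at hx hx'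
        exact Set.disjoint_left.1 hST hx.2 hx'.2
    exact tendsto_nhds_unique (hν _) h1
  have h0 : ν ∅ = 0 := by
    refine tendsto_nhds_unique (hν ∅) ?_
    have : (fun j => νj j ∅) = fun _ => 0 := by
      funext j
      simp [νj]
    rw [this]
    exact tendsto_const_nhds
  have h1 : ν A = 1 := by
    refine tendsto_nhds_unique (hν A) ?_
    have : (fun j => νj j A) = fun _ => 1 := by
      funext j
      simp only [νj]
      rw [filter_true_of_mem (hFA j), ENNReal.div_self (hpos j) (htop j)]
    rw [this]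
    exact tendsto_const_nhds
  have hinv : ∀ (g : Γ) (B : Set Γ), B ⊆ A → (∀ x ∈ B, g * x ∈ A) →
      ν B ≤ ν ((fun x => g * x) '' B) := by
    intro g B _ hgB
    have hzero : Tendsto (fun j : J => ((j.2 + 1 : ℕ) : ENNReal)⁻¹) 𝒰 (𝓝 0) := by
      have h2 : Tendsto (fun j : J => j.2 + 1) atTop atTop := by
        have h3 : Tendsto (Prod.snd : J → ℕ) atTop atTop := by
          rw [← prod_atTop_atTop_eq]; exact tendsto_snd
        exact (tendsto_add_atTop_nat 1).comp h3
      exact (ENNReal.tendsto_inv_nat_nhds_zero.comp h2).mono_left h𝒰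
    have h2 := (hν ((fun x => g * x) '' B)).add hzero
    rw [add_zero] at h2
    refine le_of_tendsto_of_tendsto (hν B) h2 ?_
    have hev : ∀ᶠ j : J in 𝒰, g ∈ j.1 := by
      apply h𝒰
      filter_upwards [eventually_ge_atTop (({g}, 0) : J)] with j hj
      exact hj.1 (mem_singleton_self g)
    filter_upwards [hev] with j hj
    simp only [νj]
    have h3 := hFS j g hj
    have h4 : ((F j).filter (fun x => x ∈ B)).card ≤
        ((F j).filter (fun x => x ∈ (fun x => g * x) '' B)).card +
        (((F j).image (fun x => g * x)).filter (fun x => x ∈ A ∧ x ∉ F j)).card := by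
      rw [← card_image_of_injective _ (mul_right_injective g)]
      refine (card_le_card ?_).trans (card_union_le _ _)
      intro y hy
      rw [mem_image] at hy
      obtain ⟨x, hx, rfl⟩ := hy
      rw [mem_filter] at hx
      rw [mem_union, mem_filter, mem_filter]
      by_cases hgx : g * x ∈ F j
      · left; exact ⟨hgx, x, hx.2, rfl⟩
      · right; exact ⟨mem_image_of_mem _ hx.1, hgB x hx.2, hgx⟩
    set a := ((F j).filter (fun x => x ∈ B)).card
    set b := ((F j).filter (fun x => x ∈ (fun x => g * x) '' B)).card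
    set e := (((F j).image (fun x => g * x)).filter (fun x => x ∈ A ∧ x ∉ F j)).card
    have h5 : (e : ENNReal) / (F j).card ≤ ((j.2 + 1 : ℕ) : ENNReal)⁻¹ := by
      rw [ENNReal.div_le_iff (hpos j) (htop j), mul_comm, ← div_eq_mul_inv]
      rw [ENNReal.le_div_iff_mul_le]
      · exact_mod_cast h3
      · left; exact_mod_cast (Nat.succ_ne_zero j.2)
      · left; exact ENNReal.natCast_ne_top _
    calc (a : ENNReal) / (F j).card ≤ ((b + e : ℕ) : ENNReal) / (F j).card := by
          apply ENNReal.div_le_div_right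
          exact_mod_cast h4
      _ = (b : ENNReal) / (F j).card + (e : ENNReal) / (F j).card := by
          rw [Nat.cast_add, ENNReal.add_div]
      _ ≤ _ := by gcongr
  exact ⟨extMeas A ν, fun S T hST => extMeas_add hadd h0 hST, fun g S => extMeas_smul S g,
    extMeas_self hadd h0 h1 hinv⟩

end folner

end Pool.Agent.Supra60
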