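import Mathlib

set_option autoImplicit false

namespace Pool.Agent.Supra60

open Finset

section counting

variable {V E : Type*} [Fintype V] {M : ℕ} [NeZero M]

open Classical in
/-- assignments that vanish outside `U` and avoid all bad events of `F` supported in `U` -/
noncomputable def goodOn (D : E → Finset V) (bad : E → (V → Fin M) → Prop) (F : Finset E) (U : Finset V) :
    Finset (V → Fin M) :=
  univ.filter (fun c => (∀ x, x ∉ U → c x = 0) ∧ ∀ e ∈ F, D e ⊆ U → ¬ bad e c)

lemma mem_goodOn {D : E → Finset V} {bad : E → (V → Fin M) → Prop} {F : Finset E} {U : Finset V}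
    {c : V → Fin M} : c ∈ goodOn D bad F U ↔
    (∀ x, x ∉ U → c x = 0) ∧ ∀ e ∈ F, D e ⊆ U → ¬ bad e c := by
  simp [goodOn]

open Classical in
lemma step_bound (D : E → Finset V) (bad : E → (V → Fin M) → Prop)
    (hloc : ∀ e c c', (∀ x ∈ D e, c x = c' x) → bad e c → bad e c')
    (hone : ∀ e c c', bad e c → bad e c' → ∀ x ∈ D e, c x = c' x)
    (F : Finset E) (U : Finset V) (z : V) (hz : z ∉ U) :
    M * (goodOn D bad F U).card ≤ (goodOn D bad F (insert z U)).card +
      ∑ e ∈ F.filter (fun e => z ∈ D e ∧ D e ⊆ insert z U), (goodOn D bad F (U \ D e)).card := by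
  -- image of the extension map
  let Φ : (V → Fin M) × Fin M → (V → Fin M) := fun p => Function.update p.1 z p.2
  let P : Finset ((V → Fin M) × Fin M) := goodOn D bad F U ×ˢ (univ : Finset (Fin M))
  have hΦ : Set.InjOn Φ P := by
    rintro ⟨c, t⟩ hc ⟨c', t'⟩ hc' h
    simp only [P, coe_product, Set.mem_prod, mem_coe, mem_goodOn, Φ] at hc hc' h
    have h1 : t = t' := by
      have := congrFun h z
      simpa using this
    have h2 : c = c' := by
      funext x
      by_cases hx : x = z
      · subst hx; rw [hc.1.1 _ hz, hc'.1.1 _ hz]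
      · have := congrFun h x
        simpa [Function.update_of_ne hx] using this
    rw [h1, h2]
  have hcardP : (P.image Φ).card = M * (goodOn D bad F U).card := by
    rw [card_image_of_injOn hΦ, card_product, card_univ, Fintype.card_fin, mul_comm]
  let Bad : E → Finset (V → Fin M) := fun e => (P.image Φ).filter (fun c => bad e c)
  have hsub : P.image Φ ⊆ goodOn D bad F (insert z U) ∪
      (F.filter (fun e => z ∈ D e ∧ D e ⊆ insert z U)).biUnion Bad := by
    intro c' hc'
    rw [mem_union]
    by_cases hgood : c' ∈ goodOn D bad F (insert z U)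
    · exact Or.inl hgood
    · right
      rw [mem_image] at hc'
      obtain ⟨⟨c, t⟩, hct, rfl⟩ := hc'
      have hct0 := hct
      simp only [P, mem_product, mem_goodOn, mem_univ, and_true] at hct
      rw [mem_goodOn] at hgood
      push Not at hgood
      obtain ⟨e, heF, heU, hbad⟩ := hgood (by
        intro x hx
        rw [mem_insert, not_or] at hx
        simp only [Φ, Function.update_of_ne hx.1]
        exact hct.1 x hx.2)
      have hze : z ∈ D e := by
        by_contra hze
        have hsubU : D e ⊆ U := by
          intro x hx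
          rcases mem_insert.1 (heU hx) with h | h
          · rw [h] at hx; exact absurd hx hze
          · exact h
        apply hct.2 e heF hsubU
        refine hloc e _ c ?_ hbad
        intro x hx
        have hxz : x ≠ z := fun h => hze (h ▸ hx)
        simp only [Φ, Function.update_of_ne hxz]
      rw [mem_biUnion]
      refine ⟨e, mem_filter.2 ⟨heF, hze, heU⟩, ?_⟩
      simp only [Bad, mem_filter]
      exact ⟨mem_image_of_mem _ hct0, hbad⟩
  have hBad : ∀ e ∈ F.filter (fun e => z ∈ D e ∧ D e ⊆ insert z U),
      (Bad e).card ≤ (goodOn D bad F (U \ D e)).card := by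
    intro e he
    rw [mem_filter] at he
    obtain ⟨heF, hze, heU⟩ := he
    refine card_le_card_of_injOn (fun c' x => if x ∈ U \ D e then c' x else 0) ?_ ?_
    · intro c' hc'
      simp only [Bad, coe_filter, Set.mem_ofPred_eq, mem_image] at hc'
      obtain ⟨⟨⟨c, t⟩, hct, rfl⟩, hbad⟩ := hc'
      simp only [P, mem_product, mem_goodOn, mem_univ, and_true] at hct
      rw [mem_coe, mem_goodOn]
      refine ⟨fun x hx => if_neg hx, ?_⟩
      intro e' he' hsub' hbad'
      apply hct.2 e' he' (hsub'.trans sdiff_subset)
      refine hloc e' _ c ?_ hbad'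
      intro x hx
      have hx' := hsub' hx
      have hxz : x ≠ z := by
        rintro rfl
        exact hz (mem_sdiff.1 hx').1
      simp only [if_pos hx', Φ, Function.update_of_ne hxz]
    · intro c1 hc1 c2 hc2 h
      simp only [Bad, coe_filter, Set.mem_ofPred_eq, mem_image] at hc1 hc2
      obtain ⟨⟨⟨c, t⟩, hct, rfl⟩, hbad⟩ := hc1
      obtain ⟨⟨⟨c', t'⟩, hct', rfl⟩, hbad'⟩ := hc2
      simp only [P, mem_product, mem_goodOn, mem_univ, and_true] at hct hct'
      funext x
      by_cases hxD : x ∈ D e
      · exact hone e _ _ hbad hbad' x hxD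
      · have hxz : x ≠ z := fun h => hxD (h ▸ hze)
        by_cases hxU : x ∈ U
        · have := congrFun h x
          simp only [mem_sdiff, hxU, hxD, not_false_iff, and_self, if_true] at this
          exact this
        · simp only [Φ, Function.update_of_ne hxz]
          rw [hct.1 x hxU, hct'.1 x hxU]
  calc M * (goodOn D bad F U).card = (P.image Φ).card := hcardP.symm
    _ ≤ (goodOn D bad F (insert z U) ∪
      (F.filter (fun e => z ∈ D e ∧ D e ⊆ insert z U)).biUnion Bad).card := card_le_card hsub
    _ ≤ (goodOn D bad F (insert z U)).card +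
      ((F.filter (fun e => z ∈ D e ∧ D e ⊆ insert z U)).biUnion Bad).card := card_union_le _ _
    _ ≤ (goodOn D bad F (insert z U)).card +
      ∑ e ∈ F.filter (fun e => z ∈ D e ∧ D e ⊆ insert z U), (Bad e).card :=
        Nat.add_le_add_left card_biUnion_le _
    _ ≤ _ := Nat.add_le_add_left (sum_le_sum hBad) _

open Classical in
lemma growth (D : E → Finset V) (bad : E → (V → Fin M) → Prop)
    (hloc : ∀ e c c', (∀ x ∈ D e, c x = c' x) → bad e c → bad e c')
    (hone : ∀ e c c', bad e c → bad e c' → ∀ x ∈ D e, c x = c' x)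
    (F : Finset E)
    (hsum : ∀ z, ∑ e ∈ F.filter (fun e => z ∈ D e), (2 / (M : ℝ)) ^ (D e).card ≤ 1) :
    ∀ n : ℕ, ∀ U : Finset V, U.card = n → ∀ W ⊆ U,
      ((goodOn D bad F W).card : ℝ) * ((M : ℝ) / 2) ^ (U.card - W.card) ≤ (goodOn D bad F U).card := by
  have hM : (0 : ℝ) < M := by exact_mod_cast Nat.pos_of_ne_zero (NeZero.ne M)
  intro n
  induction n with
  | zero =>
    intro U hU W hW
    rw [card_eq_zero] at hU
    subst hU
    rw [subset_empty.1 hW]
    simp
  | succ n ih =>
    intro U hU W hW
    by_cases hWU : W = U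
    · subst hWU; simp
    obtain ⟨z, hzU, hzW⟩ : ∃ z ∈ U, z ∉ W := by
      by_contra hcon
      push Not at hcon
      exact hWU (Subset.antisymm hW hcon)
    set U' := U.erase z with hU'
    have hzU' : z ∉ U' := notMem_erase z U
    have hins : insert z U' = U := insert_erase hzU
    have hcardU' : U'.card = n := by rw [hU', card_erase_of_mem hzU, hU]; rfl
    have hWU' : W ⊆ U' := by
      intro x hx
      rw [hU', mem_erase]
      exact ⟨fun h => hzW (h ▸ hx), hW hx⟩
    have h1 := ih U' hcardU' W hWU'
    have h2 := step_bound D bad hloc hone F U' z hzU'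
    rw [hins] at h2
    have h3 : ∀ e ∈ F.filter (fun e => z ∈ D e ∧ D e ⊆ U),
        ((goodOn D bad F (U' \ D e)).card : ℝ) ≤
          ((M : ℝ) / 2) * (2 / (M : ℝ)) ^ (D e).card * (goodOn D bad F U').card := by
      intro e he
      rw [mem_filter] at he
      obtain ⟨heF, hze, heU⟩ := he
      have h4 := ih U' hcardU' (U' \ D e) sdiff_subset
      have hc : U'.card - (U' \ D e).card + 1 = (D e).card := by
        have h5 : (U' ∩ D e).card + (U' \ D e).card = U'.card := card_inter_add_card_sdiff U' (D e)
        have h6 : D e = insert z (U' ∩ D e) := by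
          ext x
          rw [mem_insert, mem_inter, hU', mem_erase]
          constructor
          · intro hx
            by_cases hxz : x = z
            · exact Or.inl hxz
            · exact Or.inr ⟨⟨hxz, heU hx⟩, hx⟩
          · rintro (rfl | ⟨-, hx⟩)
            · exact hze
            · exact hx
        have h7 : (D e).card = (U' ∩ D e).card + 1 := by
          conv_lhs => rw [h6]
          rw [card_insert_of_notMem]
          intro h
          exact hzU' (mem_inter.1 h).1
        omega
      set k := U'.card - (U' \ D e).card with hk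
      rw [← hc]
      have hpos : (0 : ℝ) < ((M : ℝ) / 2) ^ k := by positivity
      have h8 : ((M : ℝ) / 2) * (2 / (M : ℝ)) ^ (k + 1) = (((M : ℝ) / 2) ^ k)⁻¹ := by
        rw [pow_succ]
        have : (2 / (M : ℝ)) = ((M : ℝ) / 2)⁻¹ := by rw [inv_div]
        rw [this, inv_pow]
        field_simp
      rw [h8]
      rw [inv_mul_eq_div, le_div_iff₀ hpos]
      exact h4
    have h4 : ((∑ e ∈ F.filter (fun e => z ∈ D e ∧ D e ⊆ U), (goodOn D bad F (U' \ D e)).card : ℕ) : ℝ) ≤
        ((M : ℝ) / 2) * (goodOn D bad F U').card := by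
      push_cast
      calc ∑ e ∈ F.filter (fun e => z ∈ D e ∧ D e ⊆ U), ((goodOn D bad F (U' \ D e)).card : ℝ)
          ≤ ∑ e ∈ F.filter (fun e => z ∈ D e ∧ D e ⊆ U),
            ((M : ℝ) / 2) * (2 / (M : ℝ)) ^ (D e).card * (goodOn D bad F U').card := sum_le_sum h3
        _ ≤ ∑ e ∈ F.filter (fun e => z ∈ D e),
            ((M : ℝ) / 2) * (2 / (M : ℝ)) ^ (D e).card * (goodOn D bad F U').card := by
          apply sum_le_sum_of_subset_of_nonneg
          · intro e he
            rw [mem_filter] at he ⊢
            exact ⟨he.1, he.2.1⟩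
          · intro e _ _; positivity
        _ = ((M : ℝ) / 2) * (∑ e ∈ F.filter (fun e => z ∈ D e), (2 / (M : ℝ)) ^ (D e).card) *
            (goodOn D bad F U').card := by
          rw [← sum_mul, ← mul_sum]
        _ ≤ ((M : ℝ) / 2) * 1 * (goodOn D bad F U').card := by
          have := hsum z
          gcongr
        _ = _ := by ring
    have h5 : (M : ℝ) * (goodOn D bad F U').card ≤ (goodOn D bad F U).card +
        ((M : ℝ) / 2) * (goodOn D bad F U').card := by
      have : ((M * (goodOn D bad F U').card : ℕ) : ℝ) ≤ (((goodOn D bad F U).card +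
        ∑ e ∈ F.filter (fun e => z ∈ D e ∧ D e ⊆ U), (goodOn D bad F (U' \ D e)).card : ℕ) : ℝ) := by
        exact_mod_cast h2
      rw [Nat.cast_add, Nat.cast_mul] at this
      linarith
    have h6 : ((M : ℝ) / 2) * (goodOn D bad F U').card ≤ (goodOn D bad F U).card := by linarith
    have h7 : U.card - W.card = (U'.card - W.card) + 1 := by
      have := card_le_card hWU'
      omega
    rw [h7, pow_succ]
    calc ((goodOn D bad F W).card : ℝ) * (((M : ℝ) / 2) ^ (U'.card - W.card) * ((M : ℝ) / 2))
        = ((M : ℝ) / 2) * (((goodOn D bad F W).card : ℝ) * ((M : ℝ) / 2) ^ (U'.card - W.card)) := by ring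
      _ ≤ ((M : ℝ) / 2) * (goodOn D bad F U').card := by gcongr
      _ ≤ _ := h6

open Classical in
lemma exists_good_finite (D : E → Finset V) (bad : E → (V → Fin M) → Prop)
    (hne : ∀ e, (D e).Nonempty)
    (hloc : ∀ e c c', (∀ x ∈ D e, c x = c' x) → bad e c → bad e c')
    (hone : ∀ e c c', bad e c → bad e c' → ∀ x ∈ D e, c x = c' x)
    (F : Finset E)
    (hsum : ∀ z, ∑ e ∈ F.filter (fun e => z ∈ D e), (2 / (M : ℝ)) ^ (D e).card ≤ 1) :
    ∃ c : V → Fin M, ∀ e ∈ F, ¬ bad e c := by
  have hM : (0 : ℝ) < M := by exact_mod_cast Nat.pos_of_ne_zero (NeZero.ne M)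
  have h := growth D bad hloc hone F hsum _ univ rfl ∅ (empty_subset _)
  have h0 : 0 < ((goodOn D bad F ∅).card : ℝ) := by
    rw [Nat.cast_pos, card_pos]
    refine ⟨0, ?_⟩
    rw [mem_goodOn]
    refine ⟨fun _ _ => rfl, ?_⟩
    intro e _ he
    obtain ⟨x, hx⟩ := hne e
    exact absurd (he hx) (notMem_empty x)
  have h1 : 0 < ((goodOn D bad F univ).card : ℝ) :=
    lt_of_lt_of_le (mul_pos h0 (by positivity)) h
  rw [Nat.cast_pos, card_pos] at h1
  obtain ⟨c, hc⟩ := h1
  rw [mem_goodOn] at hc
  exact ⟨c, fun e he => hc.2 e he (subset_univ _)⟩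

end counting

open Classical in
/-- A local lemma for events each determined by a single pattern on finitely many variables. -/
theorem local_lemma {V E : Type*} {M : ℕ} [NeZero M] (D : E → Finset V)
    (bad : E → (V → Fin M) → Prop)
    (hne : ∀ e, (D e).Nonempty)
    (hloc : ∀ e c c', (∀ x ∈ D e, c x = c' x) → bad e c → bad e c')
    (hone : ∀ e c c', bad e c → bad e c' → ∀ x ∈ D e, c x = c' x)
    (hsum : ∀ (F : Finset E) (z : V),
      ∑ e ∈ F.filter (fun e => z ∈ D e), (2 / (M : ℝ)) ^ (D e).card ≤ 1) :
    ∃ c : V → Fin M, ∀ e, ¬ bad e c := by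
  have hclosed : ∀ e, IsClosed {c : V → Fin M | ¬ bad e c} := by
    intro e
    by_cases hex : ∃ c0, bad e c0
    · obtain ⟨c0, hc0⟩ := hex
      have : {c : V → Fin M | ¬ bad e c} = {c : V → Fin M | ∀ x ∈ D e, c x = c0 x}ᶜ := by
        ext c
        simp only [Set.mem_ofPred_eq, Set.mem_compl_iff]
        apply not_congr
        constructor
        · intro h x hx; exact hone e c c0 h hc0 x hx
        · intro h; exact hloc e c0 c (fun x hx => (h x hx).symm) hc0
      rw [this, isClosed_compl_iff]
      have h2 : {c : V → Fin M | ∀ x ∈ D e, c x = c0 x} = ⋂ x ∈ D e, {c : V → Fin M | c x = c0 x} := by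
        ext c; simp
      rw [h2]
      apply isOpen_biInter_finset
      intro x _
      have h3 : {c : V → Fin M | c x = c0 x} = (fun c : V → Fin M => c x) ⁻¹' {c0 x} := rfl
      rw [h3]
      exact (isOpen_discrete _).preimage (continuous_apply x)
    · push Not at hex
      have : {c : V → Fin M | ¬ bad e c} = Set.univ := by
        ext c; simp [hex c]
      rw [this]; exact isClosed_univ
  have hfip : ∀ F : Finset E, (Set.univ ∩ ⋂ e ∈ F, {c : V → Fin M | ¬ bad e c}).Nonempty := by
    intro F
    let V0 : Finset V := F.biUnion D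
    let ext0 : (V0 → Fin M) → (V → Fin M) := fun c x => if h : x ∈ V0 then c ⟨x, h⟩ else 0
    let D' : F → Finset V0 := fun e => univ.filter (fun x : V0 => (x : V) ∈ D e)
    have hD'card : ∀ e : F, (D' e).card = (D e).card := by
      intro e
      rw [← card_map (Function.Embedding.subtype (fun x => x ∈ V0)) (s := D' e)]
      congr 1
      ext x
      simp only [mem_map, D', mem_filter, mem_univ, true_and, Function.Embedding.coe_subtype]
      constructor
      · rintro ⟨y, hy, rfl⟩; exact hy
      · intro hx
        exact ⟨⟨x, mem_biUnion.2 ⟨e, e.2, hx⟩⟩, hx, rfl⟩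
    obtain ⟨c, hc⟩ := exists_good_finite (V := V0) (E := F) (M := M) D' (fun e c => bad e (ext0 c))
      (by
        intro e
        obtain ⟨x, hx⟩ := hne e
        exact ⟨⟨x, mem_biUnion.2 ⟨e, e.2, hx⟩⟩, by simp [D', hx]⟩)
      (by
        intro e c c' h hb
        refine hloc e _ _ ?_ hb
        intro x hx
        have hx0 : x ∈ V0 := mem_biUnion.2 ⟨e, e.2, hx⟩
        simp only [ext0, dif_pos hx0]
        exact h ⟨x, hx0⟩ (by simp [D', hx]))
      (by
        intro e c c' hb hb' x hx
        have hx' : (x : V) ∈ D e := by simpa [D'] using hx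
        have := hone e _ _ hb hb' x hx'
        simpa [ext0, x.2] using this)
      univ
      (by
        intro z
        have h1 := hsum F z
        refine le_trans (le_of_eq ?_) h1
        simp only [hD'card]
        have : (F.filter (fun e => (z : V) ∈ D e)) =
            ((univ : Finset F).filter (fun e => z ∈ D' e)).map (Function.Embedding.subtype _) := by
          ext e
          simp only [mem_filter, mem_map, mem_univ, true_and, D', Function.Embedding.coe_subtype]
          constructor
          · rintro ⟨he, hz⟩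
            exact ⟨⟨e, he⟩, hz, rfl⟩
          · rintro ⟨e', hz, rfl⟩
            exact ⟨e'.2, hz⟩
        rw [this, sum_map]
        simp only [Function.Embedding.coe_subtype]
        refine sum_congr ?_ (fun _ _ => rfl)
        ext e
        simp only [mem_filter])
    refine ⟨ext0 c, Set.mem_univ _, ?_⟩
    rw [Set.mem_iInter₂]
    intro e he
    exact hc ⟨e, he⟩ (mem_univ _)
  obtain ⟨c, -, hc⟩ := isCompact_univ.inter_iInter_nonempty _ hclosed hfip
  rw [Set.mem_iInter] at hc
  exact ⟨c, hc⟩

end Pool.Agent.Supra60
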