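import Pool.Agent.Supra60.LLL

set_option autoImplicit false

namespace Pool.Agent.Supra60

open Finset

variable {M : ℕ}

/-- choices along the relative path `l` below the vertex `u` agree with `c` (heads of lists are last steps) -/
def reach (c : List (Bool × Fin M) × Bool → Fin M) (u : List (Bool × Fin M)) :
    List (Bool × Fin M) → Prop
  | [] => True
  | (k :: l) => c (l ++ u, k.1) = k.2 ∧ reach c u l

/-- the variables on the relative path `l` below `u` -/
def vars (u : List (Bool × Fin M)) : List (Bool × Fin M) → Finset (List (Bool × Fin M) × Bool)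
  | [] => ∅
  | (k :: l) => insert (l ++ u, k.1) (vars u l)

lemma reach_congr {c c' : List (Bool × Fin M) × Bool → Fin M} {u : List (Bool × Fin M)} :
    ∀ {l : List (Bool × Fin M)}, (∀ x ∈ vars u l, c x = c' x) → reach c u l → reach c' u l := by
  intro l
  induction l with
  | nil => intro _ _; trivial
  | cons k l ih =>
    intro h hr
    refine ⟨?_, ih (fun x hx => h x (mem_insert_of_mem hx)) hr.2⟩
    rw [← h _ (mem_insert_self _ _)]
    exact hr.1

lemma reach_unique {c c' : List (Bool × Fin M) × Bool → Fin M} {u : List (Bool × Fin M)} :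
    ∀ {l : List (Bool × Fin M)}, reach c u l → reach c' u l → ∀ x ∈ vars u l, c x = c' x := by
  intro l
  induction l with
  | nil => intro _ _ x hx; exact absurd hx (notMem_empty x)
  | cons k l ih =>
    intro h h' x hx
    rcases mem_insert.1 hx with rfl | hx
    · rw [h.1, h'.1]
    · exact ih h.2 h'.2 x hx

lemma mem_vars {u : List (Bool × Fin M)} {x : List (Bool × Fin M) × Bool} :
    ∀ {l : List (Bool × Fin M)}, x ∈ vars u l ↔ ∃ l₁ m l₂, l = l₁ ++ (x.2, m) :: l₂ ∧ x.1 = l₂ ++ u := by
  intro l
  induction l with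
  | nil =>
    constructor
    · intro h; exact absurd h (notMem_empty x)
    · rintro ⟨l₁, m, l₂, h, -⟩; simp at h
  | cons k l ih =>
    rw [vars, mem_insert, ih]
    constructor
    · rintro (rfl | ⟨l₁, m, l₂, h, h'⟩)
      · exact ⟨[], k.2, l, rfl, rfl⟩
      · exact ⟨k :: l₁, m, l₂, by rw [h]; rfl, h'⟩
    · rintro ⟨l₁, m, l₂, h, h'⟩
      rcases l₁ with _ | ⟨k', l₁⟩
      · left
        simp only [List.nil_append, List.cons.injEq] at h
        rw [h.2, h.1]
        exact Prod.ext h' rfl
      · right
        simp only [List.cons_append, List.cons.injEq] at h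
        exact ⟨l₁, m, l₂, h.2, h'⟩

lemma length_of_mem_vars {u l : List (Bool × Fin M)} {x : List (Bool × Fin M) × Bool} (h : x ∈ vars u l) :
    u.length ≤ x.1.length ∧ x.1.length < l.length + u.length := by
  obtain ⟨l₁, m, l₂, h1, h2⟩ := mem_vars.1 h
  rw [h1, h2]
  simp only [List.length_append, List.length_cons]
  omega

lemma card_vars {u : List (Bool × Fin M)} : ∀ {l : List (Bool × Fin M)}, (vars u l).card = l.length := by
  intro l
  induction l with
  | nil => rfl
  | cons k l ih =>
    rw [vars, card_insert_of_notMem, ih, List.length_cons]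
    intro h
    have := (length_of_mem_vars h).2
    simp at this

lemma reach_of_append {c : List (Bool × Fin M) × Bool → Fin M} {u : List (Bool × Fin M)} :
    ∀ {l : List (Bool × Fin M)}, reach c [] (l ++ u) → reach c u l := by
  intro l
  induction l with
  | nil => intro _; trivial
  | cons k l ih =>
    intro h
    refine ⟨?_, ih h.2⟩
    have := h.1
    simpa using this

/-- common suffix with different preceding letters -/
lemma common_suffix {κ : Type*} : ∀ (v w : List κ), ∃ u l l', v = l ++ u ∧ w = l' ++ u ∧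
    ∀ k l₁ k' l₁', l = l₁ ++ [k] → l' = l₁' ++ [k'] → k ≠ k' := by
  intro v
  induction v using List.reverseRecOn with
  | nil =>
    intro w
    refine ⟨[], [], w, rfl, by simp, ?_⟩
    intro k l₁ k' l₁' h
    simp at h
  | append_singleton v k ih =>
    intro w
    rcases List.eq_nil_or_concat w with rfl | ⟨w', k', rfl⟩
    · refine ⟨[], v ++ [k], [], by simp, rfl, ?_⟩
      intro k l₁ k' l₁' _ h
      simp at h
    · by_cases hk : k = k'
      · subst hk
        obtain ⟨u, l, l', h1, h2, h3⟩ := ih w'
        exact ⟨u ++ [k], l, l', by rw [h1]; simp, by rw [h2]; simp, h3⟩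
      · refine ⟨[], v ++ [k], w' ++ [k'], by simp, by simp, ?_⟩
        intro k1 l₁ k1' l₁' h1 h2
        have e1 := List.append_inj_right' h1 rfl
        have e2 := List.append_inj_right' h2 rfl
        simp only [List.cons.injEq, and_true] at e1 e2
        rw [← e1, ← e2]; exact hk

lemma disjoint_vars {c : List (Bool × Fin M) × Bool → Fin M} {u l l' : List (Bool × Fin M)}
    (hl : reach c u l) (hl' : reach c u l')
    (hlast : ∀ k l₁ k' l₁', l = l₁ ++ [k] → l' = l₁' ++ [k'] → k ≠ k') :
    Disjoint (vars u l) (vars u l') := by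
  rw [disjoint_left]
  intro x hx hx'
  obtain ⟨l₁, m, l₂, h1, h2⟩ := mem_vars.1 hx
  obtain ⟨l₁', m', l₂', h1', h2'⟩ := mem_vars.1 hx'
  have e : l₂ = l₂' := by
    rw [h2] at h2'
    exact List.append_cancel_right h2'
  have hval : ∀ {l l₁ l₂ : List (Bool × Fin M)} {b : Bool} {m : Fin M}, l = l₁ ++ (b, m) :: l₂ →
      reach c u l → c (l₂ ++ u, b) = m := by
    intro l l₁ l₂ b m h
    subst h
    induction l₁ with
    | nil => intro h; exact h.1
    | cons k l₁ ih => intro h; exact ih h.2
  have hm : m = m' := by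
    rw [← hval h1 hl, ← hval h1' hl', e]
  rw [← e, ← hm] at h1'
  -- last letters agree
  obtain ⟨s, k, hs⟩ : ∃ s k, (x.2, m) :: l₂ = s ++ [k] := by
    rcases List.eq_nil_or_concat ((x.2, m) :: l₂) with h | ⟨s, k, h⟩
    · simp at h
    · exact ⟨s, k, by simpa using h⟩
  exact hlast k (l₁ ++ s) k (l₁' ++ s) (by rw [h1, hs]; simp) (by rw [h1', hs]; simp) rfl

lemma card_lists_le {κ : Type*} [Fintype κ] [DecidableEq κ] (j : ℕ) (L : Finset (List κ))
    (h : ∀ l ∈ L, l.length = j) : L.card ≤ (Fintype.card κ) ^ j := by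
  rw [← card_vector (α := κ) j, ← card_univ]
  let e : L → List.Vector κ j := fun l => ⟨l.1, h l.1 l.2⟩
  have he : Function.Injective e := by
    intro a b hab
    have h2 := congrArg (fun v : List.Vector κ j => v.toList) hab
    exact Subtype.ext h2
  have := Fintype.card_le_of_injective e he
  simpa using this

/-- the type of possible collisions -/
structure Coll {X : Type*} (f : List (Bool × Fin M) → X) where
  u : List (Bool × Fin M)
  l : List (Bool × Fin M)
  l' : List (Bool × Fin M)
  pos : 1 ≤ l.length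
  le : l'.length ≤ l.length
  eq : f (l ++ u) = f (l' ++ u)
  disj : Disjoint (vars u l) (vars u l')

lemma geom_bound (n : ℕ) : ∑ i ∈ range (n + 1), (if 1 ≤ i then ((1 : ℝ) / 3) ^ i else 0) ≤ 1 / 2 := by
  have h : ∀ n : ℕ, ∑ i ∈ range (n + 1), (if 1 ≤ i then ((1 : ℝ) / 3) ^ i else 0) =
      1 / 2 - (1 / 2) * (1 / 3) ^ n := by
    intro n
    induction n with
    | zero => simp
    | succ n ih =>
      rw [sum_range_succ, ih, if_pos (by omega)]
      ring
  rw [h]
  have : (0 : ℝ) ≤ (1 / 2) * (1 / 3) ^ n := by positivity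
  linarith

lemma pow4_sum (i : ℕ) (hi : 1 ≤ i) : ∑ j ∈ range (i + 1), (4 : ℝ) ^ j ≤ 5 ^ i := by
  induction i, hi using Nat.le_induction with
  | base => norm_num [sum_range_succ]
  | succ i hi ih =>
    rw [sum_range_succ]
    have h1 : (4 : ℝ) ^ (i + 1) ≤ 4 * 5 ^ i := by
      rw [pow_succ, mul_comm]
      have : (4 : ℝ) ^ i ≤ 5 ^ i := pow_le_pow_left₀ (by norm_num) (by norm_num) i
      linarith
    calc _ ≤ (5 : ℝ) ^ i + 4 * 5 ^ i := add_le_add ih h1
      _ = 5 ^ (i + 1) := by ring

open Classical in
lemma sum_bound [NeZero M] {X : Type*} (f : List (Bool × Fin M) → X) (q : ℕ → ℕ)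
    (hq : ∀ (u : List (Bool × Fin M)) (i : ℕ) (g : X) (L : Finset (List (Bool × Fin M))),
      (∀ l ∈ L, l.length = i ∧ f (l ++ u) = g) → L.card ≤ q i)
    (hq2 : ∀ i, 1 ≤ i → (q i : ℝ) ≤ ((M : ℝ) / 60) ^ i)
    (F : Finset (Coll f)) (z : List (Bool × Fin M) × Bool) :
    ∑ e ∈ F.filter (fun e => z ∈ vars e.u e.l ∪ vars e.u e.l'),
      (2 / (M : ℝ)) ^ (vars e.u e.l ∪ vars e.u e.l').card ≤ 1 := by
  have hM : (0 : ℝ) < M := by exact_mod_cast Nat.pos_of_ne_zero (NeZero.ne M)
  set F' := F.filter (fun e => z ∈ vars e.u e.l ∪ vars e.u e.l') with hF'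
  -- key
  let key : Coll f → (_ : ℕ) × ℕ × ℕ := fun e => ⟨e.l.length, (z.1.length - e.u.length, e.l'.length)⟩
  set n := F'.sup (fun e => e.l.length) with hn
  let K : Finset ((_ : ℕ) × ℕ × ℕ) := (range (n + 1)).sigma (fun i => range i ×ˢ range (i + 1))
  have hzlen : ∀ e ∈ F', e.u.length ≤ z.1.length ∧ z.1.length < e.l.length + e.u.length ∧
      e.u = z.1.drop (z.1.length - e.u.length) := by
    intro e he
    rw [hF', mem_filter, mem_union] at he
    have hlen : e.u.length ≤ z.1.length ∧ z.1.length < e.l.length + e.u.length := by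
      rcases he.2 with h | h
      · exact length_of_mem_vars h
      · have := length_of_mem_vars h
        have := e.le
        omega
    refine ⟨hlen.1, hlen.2, ?_⟩
    have hsuf : ∃ l₂, z.1 = l₂ ++ e.u := by
      rcases he.2 with h | h
      · obtain ⟨l₁, m, l₂, h1, h2⟩ := mem_vars.1 h
        exact ⟨l₂, h2⟩
      · obtain ⟨l₁, m, l₂, h1, h2⟩ := mem_vars.1 h
        exact ⟨l₂, h2⟩
    obtain ⟨l₂, h2⟩ := hsuf
    rw [h2]
    simp
  have hmaps : ∀ e ∈ F', key e ∈ K := by
    intro e he
    have h1 := hzlen e he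
    have h2 : e.l.length ≤ n := by
      rw [hn]; exact le_sup (f := fun e : Coll f => e.l.length) he
    simp only [K, key, mem_sigma, mem_product, mem_range]
    have := e.le
    refine ⟨by omega, by omega, by omega⟩
  rw [← sum_fiberwise_of_maps_to hmaps]
  have hfib : ∀ y ∈ K, ∑ e ∈ F'.filter (fun e => key e = y), (2 / (M : ℝ)) ^ (vars e.u e.l ∪ vars e.u e.l').card ≤
      if 1 ≤ y.1 then ((2 * (M : ℝ)) ^ y.2.2 * ((M : ℝ) / 60) ^ y.1) * (2 / (M : ℝ)) ^ (y.1 + y.2.2) else 0 := by
    rintro ⟨i, a, j⟩ hy
    simp only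
    by_cases hi : 1 ≤ i
    · rw [if_pos hi]
      have hw : ∀ e ∈ F'.filter (fun e => key e = ⟨i, a, j⟩),
          (2 / (M : ℝ)) ^ (vars e.u e.l ∪ vars e.u e.l').card = (2 / (M : ℝ)) ^ (i + j) := by
        intro e he
        rw [mem_filter] at he
        have hk := he.2
        simp only [key, Sigma.mk.injEq, heq_eq_eq, Prod.mk.injEq] at hk
        rw [card_union_of_disjoint e.disj, card_vars, card_vars, hk.1, hk.2.2]
      rw [sum_congr rfl hw, sum_const, nsmul_eq_mul]
      apply mul_le_mul_of_nonneg_right _ (by positivity)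
      -- count the fibre
      set Φ := F'.filter (fun e => key e = ⟨i, a, j⟩) with hΦ
      have hΦmem : ∀ e ∈ Φ, e.l.length = i ∧ e.l'.length = j ∧ e.u = z.1.drop a := by
        intro e he
        rw [hΦ, mem_filter] at he
        have hk := he.2
        simp only [key, Sigma.mk.injEq, heq_eq_eq, Prod.mk.injEq] at hk
        refine ⟨hk.1, hk.2.2, ?_⟩
        rw [← hk.2.1]
        exact (hzlen e he.1).2.2
      have h1 : ∀ b ∈ Φ.image (fun e => e.l'), (Φ.filter (fun e => e.l' = b)).card ≤ q i := by
        intro b hb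
        have hinj : Set.InjOn (fun e : Coll f => e.l) (Φ.filter (fun e => e.l' = b)) := by
          intro e he e' he' hee'
          rw [mem_coe, mem_filter] at he he'
          have hu : e.u = e'.u := by rw [(hΦmem e he.1).2.2, (hΦmem e' he'.1).2.2]
          have hl' : e.l' = e'.l' := by rw [he.2, he'.2]
          have hl : e.l = e'.l := hee'
          cases e; cases e'
          simp only at hu hl' hl
          subst hu hl' hl
          rfl
        rw [← card_image_of_injOn hinj]
        apply hq (z.1.drop a) i (f (b ++ z.1.drop a))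
        intro l hl
        rw [mem_image] at hl
        obtain ⟨e, he, rfl⟩ := hl
        rw [mem_filter] at he
        obtain ⟨h2, h3, h4⟩ := hΦmem e he.1
        refine ⟨h2, ?_⟩
        rw [← h4, ← he.2]
        exact e.eq
      have h2 := card_le_mul_card_image Φ (q i) h1
      have h3 : (Φ.image (fun e => e.l')).card ≤ (2 * M) ^ j := by
        have := card_lists_le j (Φ.image (fun e => e.l')) (by
          intro l hl
          rw [mem_image] at hl
          obtain ⟨e, he, rfl⟩ := hl
          exact (hΦmem e he).2.1)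
        simpa using this
      calc (Φ.card : ℝ) ≤ ((q i * (Φ.image (fun e => e.l')).card : ℕ) : ℝ) := by exact_mod_cast h2
        _ = (q i : ℝ) * ((Φ.image (fun e => e.l')).card : ℝ) := by push_cast; ring
        _ ≤ ((M : ℝ) / 60) ^ i * (2 * (M : ℝ)) ^ j := by
          apply mul_le_mul (hq2 i hi)
          · have : (((Φ.image (fun e => e.l')).card : ℕ) : ℝ) ≤ (((2 * M) ^ j : ℕ) : ℝ) := by
              exact_mod_cast h3
            refine this.trans (le_of_eq ?_)
            push_cast; ring
          · exact Nat.cast_nonneg _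
          · exact pow_nonneg (by positivity) _
        _ = _ := mul_comm _ _
    · rw [if_neg hi]
      apply le_of_eq
      apply sum_eq_zero
      intro e he
      exfalso
      rw [mem_filter] at he
      have hk := he.2
      simp only [key, Sigma.mk.injEq, heq_eq_eq, Prod.mk.injEq] at hk
      have := e.pos
      omega
  refine (sum_le_sum hfib).trans ?_
  simp only [K]
  rw [sum_sigma]
  simp only
  have hinner : ∀ i ∈ range (n + 1), (∑ y ∈ range i ×ˢ range (i + 1),
      if 1 ≤ i then ((2 * (M : ℝ)) ^ y.2 * ((M : ℝ) / 60) ^ i) * (2 / (M : ℝ)) ^ (i + y.2) else 0) ≤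
      if 1 ≤ i then ((1 : ℝ) / 3) ^ i else 0 := by
    intro i _
    by_cases hi : 1 ≤ i
    · simp only [if_pos hi]
      rw [sum_product]
      simp only
      have h1 : ∀ j, ((2 * (M : ℝ)) ^ j * ((M : ℝ) / 60) ^ i) * (2 / (M : ℝ)) ^ (i + j) =
          (1 / 30) ^ i * 4 ^ j := by
        intro j
        rw [pow_add]
        have e1 : (2 * (M : ℝ)) ^ j * (2 / (M : ℝ)) ^ j = 4 ^ j := by
          rw [← mul_pow]; congr 1; field_simp; norm_num
        have e2 : ((M : ℝ) / 60) ^ i * (2 / (M : ℝ)) ^ i = (1 / 30) ^ i := by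
          rw [← mul_pow]; congr 1; field_simp; norm_num
        calc _ = ((2 * (M : ℝ)) ^ j * (2 / (M : ℝ)) ^ j) * (((M : ℝ) / 60) ^ i * (2 / (M : ℝ)) ^ i) := by ring
          _ = _ := by rw [e1, e2]; ring
      simp only [h1]
      rw [sum_const, card_range, nsmul_eq_mul, ← mul_sum]
      have h2 := pow4_sum i hi
      have h3 : (i : ℝ) ≤ 2 ^ i := by exact_mod_cast (Nat.lt_two_pow_self (n := i)).le
      calc (i : ℝ) * ((1 / 30) ^ i * ∑ j ∈ range (i + 1), (4 : ℝ) ^ j) ≤
          2 ^ i * ((1 / 30) ^ i * 5 ^ i) := by gcongr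
        _ = (1 / 3) ^ i := by
          rw [← mul_pow, ← mul_pow]; norm_num
    · simp only [if_neg hi]
      simp
  refine (sum_le_sum hinner).trans ?_
  exact (geom_bound n).trans (by norm_num)

/-- **Selection of an injective binary subtree.** -/
theorem tree_selection [NeZero M] {X : Type*} (f : List (Bool × Fin M) → X) (q : ℕ → ℕ)
    (hq : ∀ (u : List (Bool × Fin M)) (i : ℕ) (g : X) (L : Finset (List (Bool × Fin M))),
      (∀ l ∈ L, l.length = i ∧ f (l ++ u) = g) → L.card ≤ q i)
    (hq2 : ∀ i, 1 ≤ i → (q i : ℝ) ≤ ((M : ℝ) / 60) ^ i) :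
    ∃ c : List (Bool × Fin M) × Bool → Fin M, Set.InjOn f {v | reach c [] v} := by
  classical
  obtain ⟨c, hc⟩ := local_lemma (V := List (Bool × Fin M) × Bool) (E := Coll f) (M := M)
    (fun e => vars e.u e.l ∪ vars e.u e.l')
    (fun e c => reach c e.u e.l ∧ reach c e.u e.l')
    (by
      intro e
      rw [← card_pos]
      have h1 := e.pos
      rw [← card_vars (u := e.u)] at h1
      exact lt_of_lt_of_le h1 (card_le_card subset_union_left))
    (by
      intro e c c' h hb
      exact ⟨reach_congr (fun x hx => h x (mem_union_left _ hx)) hb.1,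
        reach_congr (fun x hx => h x (mem_union_right _ hx)) hb.2⟩)
    (by
      intro e c c' hb hb' x hx
      rcases mem_union.1 hx with hx | hx
      · exact reach_unique hb.1 hb'.1 x hx
      · exact reach_unique hb.2 hb'.2 x hx)
    (by
      intro F z
      have := sum_bound f q hq hq2 F z
      refine le_trans (le_of_eq (sum_congr ?_ (fun _ _ => ?_))) this
      · ext e
        simp only [mem_filter]
      · rfl)
  refine ⟨c, ?_⟩
  have key : ∀ v w : List (Bool × Fin M), reach c [] v → reach c [] w → w.length ≤ v.length →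
      f v = f w → v = w := by
    intro v w hv hw hlen hfvw
    by_contra hne
    obtain ⟨u, l, l', h1, h2, h3⟩ := common_suffix v w
    subst h1 h2
    have hl := reach_of_append hv
    have hl' := reach_of_append hw
    simp only [List.length_append, add_le_add_iff_right] at hlen
    have hpos : 1 ≤ l.length := by
      by_contra hcon
      have e1 : l = [] := by
        rw [← List.length_eq_zero_iff]; omega
      have e2 : l' = [] := by
        rw [← List.length_eq_zero_iff]; omega
      exact hne (by rw [e1, e2])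
    exact hc ⟨u, l, l', hpos, hlen, hfvw, disjoint_vars hl hl' h3⟩ ⟨hl, hl'⟩
  intro v hv w hw hfvw
  rcases le_total w.length v.length with h | h
  · exact key v w hv hw h hfvw
  · exact (key w v hw hv h hfvw.symm).symm

end Pool.Agent.Supra60
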